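import Pool.Agent.Q196.QF6.Pos
import Pool.Agent.Q196.QF6.Small
import Pool.Agent.Q196.QF6.Neg

set_option autoImplicit false

/-!
# MP_472c23_co: which of the ratios `P_{1,n}, …, P_{5,n}` are polynomials with non-negative coefficients

With `qfac m = [m]!`, `num i n` and `den i n` are the numerator and the denominator of `P_{i,n}`.

* `P_{1,n}`, `P_{2,n}`, `P_{3,n}` are polynomials with non-negative integer coefficients for all `n ≥ 1`;
* `P_{4,n}`, `P_{5,n}` are polynomials with non-negative integer coefficients for all `n ≥ 2` with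
  `n ≢ 1 mod 9`;
* for `n ≡ 1 mod 9` (for instance `n = 10`) `P_{4,n}` and `P_{5,n}` are not polynomials (not even over
  `ℂ`) and their power series have a negative coefficient.

So Q1 is answered: the conjecture holds exactly for `i = 1, 2, 3` and for `i = 4, 5`, `n ≢ 1 mod 9`, and
fails for `i = 4, 5` and `n = 10, 19, 28, …`.

Method. After cancellation `P_{i,n}` is the Hilbert series of a complete intersection in a weighted
polynomial ring, with degrees `3n < b ≤ 6n` (and `3` for `i = 5`) and weights at most `3n`. The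
semigroup condition of the theorem `ci_main` of the starting library is proved by small doubling in
`ℤ / M` and by counting multiples of `g`. For `n ≡ 1 mod 9` the primitive ninth roots of unity are poles.
-/

namespace Pool.Agent.Results.MP_472c23_co.Classification

open Polynomial Pool.Agent.Q196.QF6

theorem result :
    (∀ n : ℕ, 1 ≤ n → NonnegPoly 1 n ∧ NonnegPoly 2 n ∧ NonnegPoly 3 n) ∧
    (∀ n : ℕ, 2 ≤ n → n % 9 ≠ 1 → NonnegPoly 4 n ∧ NonnegPoly 5 n) ∧
    (∀ n : ℕ, n % 9 = 1 → ∀ i : ℕ, i = 4 ∨ i = 5 →
      (¬ ∃ P : ℂ[X], (num i n).map (Int.castRingHom ℂ) = P * (den i n).map (Int.castRingHom ℂ)) ∧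
      ∃ P : PowerSeries ℤ, (num i n : PowerSeries ℤ) = P * (den i n : PowerSeries ℤ) ∧
        ∃ k, PowerSeries.coeff k P < 0) := by
  refine ⟨?_, ?_, ?_⟩
  · intro n hn
    refine ⟨pos1 n hn, ?_, ?_⟩
    · rcases Nat.lt_or_ge n 3 with h | h
      · interval_cases n
        · exact s2_1
        · exact s2_2
      · exact pos2 n h
    · rcases Nat.lt_or_ge n 3 with h | h
      · interval_cases n
        · exact s3_1
        · exact s3_2
      · exact pos3 n h
  · intro n hn h9
    rcases Nat.lt_or_ge n 7 with h | h
    · interval_cases n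
      · exact ⟨s4_2, s5_2⟩
      · exact ⟨s4_3, s5_3⟩
      · exact ⟨s4_4, s5_4⟩
      · exact ⟨s4_5, s5_5⟩
      · exact ⟨s4_6, s5_6⟩
    · exact ⟨pos4 n h h9, pos5 n h h9⟩
  · intro n h9 i hi
    exact ⟨not_poly i n hi h9, neg_coeff i n hi h9⟩

end Pool.Agent.Results.MP_472c23_co.Classification
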